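import Mathlib

/-!
# Khintchine's inequality for independent variables with mean `0` and bounded `p`-th moments

(Leaf for helper71, MP_ee74d2_an.)
-/

set_option autoImplicit false

open MeasureTheory ProbabilityTheory
open scoped ENNReal

namespace Pool.Agent.K9h21.MZ

/-! ### Real inequalities -/

/-- the tangent line of `x ^ r` -/
theorem tang {r x z : ℝ} (hr : 1 ≤ r) (hx : 0 < x) (hz : 0 ≤ z) :
    x ^ r + r * x ^ (r - 1) * (z - x) ≤ z ^ r := by
  have h1 : -1 ≤ z / x - 1 := by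
    have : 0 ≤ z / x := by positivity
    linarith
  have h2 := one_add_mul_self_le_rpow_one_add h1 hr
  have h3 : 1 + (z / x - 1) = z / x := by ring
  rw [h3, Real.div_rpow hz hx.le] at h2
  have hxr : 0 < x ^ r := Real.rpow_pos_of_pos hx r
  have h4 : x ^ (r - 1) = x ^ r / x := by rw [Real.rpow_sub hx, Real.rpow_one]
  rw [le_div_iff₀ hxr] at h2
  rw [h4]
  calc x ^ r + r * (x ^ r / x) * (z - x) = (1 + r * (z / x - 1)) * x ^ r := by
        field_simp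
    _ ≤ z ^ r := h2

/-- second order bound for `(1 + y) ^ r` -/
theorem scal {r : ℝ} (hr : 1 ≤ r) : ∃ c : ℝ, 0 ≤ c ∧ ∀ y : ℝ, -(3 / 4) ≤ y → y ≤ 5 / 4 →
    (1 + y) ^ r ≤ 1 + r * y + c * y ^ 2 := by
  obtain ⟨q, hq⟩ : ∃ q, q = r - 1 := ⟨_, rfl⟩
  have hq0 : 0 ≤ q := by rw [hq]; linarith
  obtain ⟨c, hc⟩ : ∃ c, c = 4 * q * Real.exp (2 * q) := ⟨_, rfl⟩
  have he1 : 1 ≤ Real.exp (2 * q) := Real.one_le_exp (by positivity)
  have hc0 : 0 ≤ c := by rw [hc]; positivity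
  refine ⟨r * c, by positivity, fun y h1 h2 => ?_⟩
  have hx : 0 < 1 + y := by linarith
  have h3 := tang (z := 1) hr hx zero_le_one
  rw [Real.one_rpow, ← hq] at h3
  -- the key estimate
  have key : y * ((1 + y) ^ q - 1) ≤ c * y ^ 2 := by
    rcases le_total 0 y with hy | hy
    · have e1 : (1 + y) ^ q ≤ Real.exp (q * y) := by
        calc (1 + y) ^ q ≤ (Real.exp y) ^ q := by
              apply Real.rpow_le_rpow hx.le _ hq0
              have := Real.add_one_le_exp y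
              linarith
          _ = Real.exp (q * y) := by rw [← Real.exp_mul, mul_comm]
      have e2 : Real.exp (q * y) - 1 ≤ q * y * Real.exp (q * y) := by
        have h4 := Real.add_one_le_exp (-(q * y))
        have h5 := Real.exp_pos (q * y)
        have h6 : Real.exp (-(q * y)) * Real.exp (q * y) = 1 := by rw [← Real.exp_add]; simp
        nlinarith
      have e3 : Real.exp (q * y) ≤ Real.exp (2 * q) := Real.exp_le_exp.2 (by nlinarith)
      have e4 : q * y * Real.exp (q * y) ≤ c * y := by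
        rw [hc]
        have : q * y * Real.exp (q * y) ≤ q * y * Real.exp (2 * q) := by gcongr
        have h7 : 0 ≤ q * y * Real.exp (2 * q) := by positivity
        nlinarith
      have e5 : (1 + y) ^ q - 1 ≤ c * y := by linarith
      nlinarith [mul_le_mul_of_nonneg_left e5 hy]
    · obtain ⟨t, ht⟩ : ∃ t, t = -y := ⟨_, rfl⟩
      have ht0 : 0 ≤ t := by rw [ht]; linarith
      have ht1 : t ≤ 3 / 4 := by rw [ht]; linarith
      have e0 : Real.exp (-(4 * t)) ≤ 1 + y := by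
        have h4 := Real.add_one_le_exp (4 * t)
        have h5 := Real.exp_pos (-(4 * t))
        have h6 : Real.exp (-(4 * t)) * Real.exp (4 * t) = 1 := by rw [← Real.exp_add]; simp
        have h7 : Real.exp (-(4 * t)) * (4 * t + 1) ≤ 1 :=
          (mul_le_mul_of_nonneg_left h4 h5.le).trans_eq h6
        have h8 : 1 ≤ (1 - t) * (4 * t + 1) := by nlinarith
        have h9 : Real.exp (-(4 * t)) * (4 * t + 1) ≤ (1 - t) * (4 * t + 1) := h7.trans h8
        have h10 : 0 < 4 * t + 1 := by linarith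
        have h11 := le_of_mul_le_mul_right h9 h10
        rw [ht] at h11 ⊢
        linarith
      have e1 : Real.exp (-(4 * t * q)) ≤ (1 + y) ^ q := by
        calc Real.exp (-(4 * t * q)) = (Real.exp (-(4 * t))) ^ q := by
              rw [← Real.exp_mul]
              congr 1
              ring
          _ ≤ (1 + y) ^ q := Real.rpow_le_rpow (Real.exp_pos _).le e0 hq0
      have e2 := Real.add_one_le_exp (-(4 * t * q))
      have e3 : 4 * t * q ≤ c * t := by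
        rw [hc]
        have : 4 * t * q * 1 ≤ 4 * t * q * Real.exp (2 * q) := by gcongr
        linarith
      have e4 : -(c * t) ≤ (1 + y) ^ q - 1 := by linarith
      have e5 : y = -t := by rw [ht]; ring
      rw [e5] at e4 ⊢
      nlinarith [mul_le_mul_of_nonneg_left e4 ht0]
  have h4 : r * (y * ((1 + y) ^ q - 1)) ≤ r * (c * y ^ 2) := mul_le_mul_of_nonneg_left key (by linarith)
  have h5 : (1 + y) ^ r ≤ 1 + r * (1 + y) ^ q * y := by linarith
  linarith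

theorem rpow_two_add {p x : ℝ} (hp : 2 ≤ p) (hx : 0 ≤ x) : x ^ (p - 2) * x ^ 2 = x ^ p := by
  rw [← Real.rpow_two, ← Real.rpow_add_of_nonneg hx (by linarith) (by norm_num)]
  congr 1
  ring

/-- the pointwise inequality -/
theorem pw {p : ℝ} (hp : 2 ≤ p) : ∃ c : ℝ, 0 < c ∧ ∀ a b : ℂ, ‖a + b‖ ^ p ≤
    ‖a‖ ^ p + p * (‖a‖ ^ (p - 2) * ((starRingEnd ℂ) a * b).re) + c * (‖a‖ ^ (p - 2) * ‖b‖ ^ 2 + ‖b‖ ^ p) := by
  obtain ⟨c', hc'0, hc'⟩ := scal (r := p / 2) (by linarith)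
  obtain ⟨c, hc⟩ : ∃ c, c = 3 ^ p + p * 2 ^ (p - 2) * 2 + (p / 2 + 25 / 4 * c') := ⟨_, rfl⟩
  have h3p : (0 : ℝ) < 3 ^ p := by positivity
  have h2p : (0 : ℝ) < 2 ^ (p - 2) := by positivity
  refine ⟨c, by rw [hc]; positivity, fun a b => ?_⟩
  obtain ⟨α, hα⟩ : ∃ α, α = ‖a‖ := ⟨_, rfl⟩
  obtain ⟨β, hβ⟩ : ∃ β, β = ‖b‖ := ⟨_, rfl⟩
  obtain ⟨ρ, hρ⟩ : ∃ ρ, ρ = ((starRingEnd ℂ) a * b).re := ⟨_, rfl⟩
  have hα0 : 0 ≤ α := by rw [hα]; exact norm_nonneg _
  have hβ0 : 0 ≤ β := by rw [hβ]; exact norm_nonneg _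
  have hρa : |ρ| ≤ α * β := by
    rw [hρ, hα, hβ]
    refine (Complex.abs_re_le_norm _).trans ?_
    rw [norm_mul, RCLike.norm_conj]
  have hsq : ‖a + b‖ ^ 2 = α ^ 2 + 2 * ρ + β ^ 2 := by
    rw [hα, hβ, hρ, ← Complex.normSq_eq_norm_sq, ← Complex.normSq_eq_norm_sq, ← Complex.normSq_eq_norm_sq,
      Complex.normSq_apply, Complex.normSq_apply, Complex.normSq_apply]
    simp only [Complex.add_re, Complex.add_im, Complex.mul_re, Complex.conj_re, Complex.conj_im]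
    ring
  have hαp : 0 ≤ α ^ (p - 2) := Real.rpow_nonneg hα0 _
  have hβp : 0 ≤ β ^ p := Real.rpow_nonneg hβ0 _
  rw [← hα, ← hβ, ← hρ]
  rw [abs_le] at hρa
  by_cases hcase : α ≤ 2 * β
  · have e1 : ‖a + b‖ ^ p ≤ 3 ^ p * β ^ p := by
      rw [← Real.mul_rpow (by norm_num) hβ0]
      apply Real.rpow_le_rpow (norm_nonneg _) _ (by linarith)
      refine (norm_add_le a b).trans ?_
      rw [← hα, ← hβ]
      linarith
    have e2 : α ^ (p - 2) ≤ 2 ^ (p - 2) * β ^ (p - 2) := by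
      rw [← Real.mul_rpow (by norm_num) hβ0]
      exact Real.rpow_le_rpow hα0 hcase (by linarith)
    have e3 : -(2 ^ (p - 2) * 2 * β ^ p) ≤ α ^ (p - 2) * ρ := by
      have h1 : α ^ (p - 2) * (α * β) ≤ 2 ^ (p - 2) * 2 * β ^ p := by
        calc α ^ (p - 2) * (α * β) ≤ (2 ^ (p - 2) * β ^ (p - 2)) * (2 * β * β) := by gcongr
          _ = 2 ^ (p - 2) * 2 * (β ^ (p - 2) * β ^ 2) := by ring
          _ = _ := by rw [rpow_two_add hp hβ0]
      have h2 : α ^ (p - 2) * -(α * β) ≤ α ^ (p - 2) * ρ := mul_le_mul_of_nonneg_left hρa.1 hαp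
      linarith
    have e4 : 0 ≤ α ^ p := Real.rpow_nonneg hα0 _
    have e5 : 0 ≤ α ^ (p - 2) * β ^ 2 := by positivity
    have e6 : 0 ≤ (p / 2 + 25 / 4 * c') * β ^ p := by positivity
    have e7 : p * -(2 ^ (p - 2) * 2 * β ^ p) ≤ p * (α ^ (p - 2) * ρ) := mul_le_mul_of_nonneg_left e3 (by linarith)
    have e8 : c * (α ^ (p - 2) * β ^ 2 + β ^ p) = c * (α ^ (p - 2) * β ^ 2) + 3 ^ p * β ^ p +
        p * (2 ^ (p - 2) * 2 * β ^ p) + (p / 2 + 25 / 4 * c') * β ^ p := by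
      rw [hc]; ring
    have e9 : 0 ≤ c * (α ^ (p - 2) * β ^ 2) := by
      have : 0 ≤ c := by rw [hc]; positivity
      positivity
    rw [e8]
    linarith
  · push Not at hcase
    have hαpos : 0 < α := by linarith
    obtain ⟨y, hy⟩ : ∃ y, y = (2 * ρ + β ^ 2) / α ^ 2 := ⟨_, rfl⟩
    have hyα : y * α ^ 2 = 2 * ρ + β ^ 2 := by rw [hy]; field_simp
    have hα2 : 0 < α ^ 2 := by positivity
    have hy1 : -(3 / 4) ≤ y := by
      rw [hy, le_div_iff₀ hα2]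
      nlinarith [hρa.1]
    have hy2 : y ≤ 5 / 4 := by
      rw [hy, div_le_iff₀ hα2]
      nlinarith [hρa.2]
    have h1 := hc' y hy1 hy2
    have e1 : ‖a + b‖ ^ p = α ^ p * (1 + y) ^ (p / 2) := by
      have h2 : ‖a + b‖ ^ p = (‖a + b‖ ^ 2) ^ (p / 2) := by
        rw [← Real.rpow_two, ← Real.rpow_mul (norm_nonneg _)]
        congr 1
        ring
      have h3 : α ^ p = (α ^ 2) ^ (p / 2) := by
        rw [← Real.rpow_two, ← Real.rpow_mul hα0]
        congr 1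
        ring
      rw [h2, h3, ← Real.mul_rpow hα2.le (by linarith), hsq]
      congr 1
      linear_combination -hyα
    have hαp' : α ^ p = α ^ (p - 2) * α ^ 2 := (rpow_two_add hp hα0).symm
    have e2 : α ^ p * (1 + y) ^ (p / 2) ≤ α ^ p * (1 + p / 2 * y + c' * y ^ 2) :=
      mul_le_mul_of_nonneg_left h1 (Real.rpow_nonneg hα0 _)
    have e3 : α ^ 2 * y ^ 2 ≤ 25 / 4 * β ^ 2 := by
      have h4 : (y * α ^ 2) ^ 2 ≤ (5 / 2 * α * β) ^ 2 := by
        rw [hyα]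
        apply sq_le_sq'
        · nlinarith [hρa.1, sq_nonneg β]
        · nlinarith [hρa.2]
      have h5 : α ^ 2 * (α ^ 2 * y ^ 2) ≤ α ^ 2 * (25 / 4 * β ^ 2) := by nlinarith
      exact le_of_mul_le_mul_left h5 hα2
    have e4 : α ^ p * (1 + p / 2 * y + c' * y ^ 2) =
        α ^ p + p * (α ^ (p - 2) * ρ) + p / 2 * (α ^ (p - 2) * β ^ 2) + c' * (α ^ (p - 2) * (α ^ 2 * y ^ 2)) := by
      rw [hαp']
      linear_combination (α ^ (p - 2) * p / 2) * hyα
    have e5 : c' * (α ^ (p - 2) * (α ^ 2 * y ^ 2)) ≤ c' * (α ^ (p - 2) * (25 / 4 * β ^ 2)) := by gcongr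
    have e6 : 0 ≤ c * β ^ p := by
      have : 0 ≤ c := by rw [hc]; positivity
      positivity
    have e7 : 0 ≤ (3 ^ p + p * 2 ^ (p - 2) * 2) * (α ^ (p - 2) * β ^ 2) := by positivity
    have e8 : c * (α ^ (p - 2) * β ^ 2) = (3 ^ p + p * 2 ^ (p - 2) * 2) * (α ^ (p - 2) * β ^ 2) +
        p / 2 * (α ^ (p - 2) * β ^ 2) + c' * (α ^ (p - 2) * (25 / 4 * β ^ 2)) := by
      rw [hc]; ring
    rw [e1, mul_add, e8]
    linarith

/-- convexity -/
theorem conv {r σ δ : ℝ} (hr : 1 ≤ r) (hσ : 0 ≤ σ) (hδ : 0 ≤ δ) :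
    σ ^ r + r / 2 * (σ ^ (r - 1) * δ) + δ ^ r / 2 ≤ (σ + δ) ^ r := by
  have h1 : σ ^ r + δ ^ r ≤ (σ + δ) ^ r := Real.add_rpow_le_rpow_add hσ hδ hr
  have h2 : σ ^ r + r * σ ^ (r - 1) * δ ≤ (σ + δ) ^ r := by
    rcases hσ.eq_or_lt with h0 | h0
    · rw [← h0, Real.zero_rpow (by linarith), zero_add, zero_add]
      rcases hr.eq_or_lt with h3 | h3
      · rw [← h3]; simp
      · rw [Real.zero_rpow (by linarith), mul_zero, zero_mul]
        exact Real.rpow_nonneg hδ _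
    · have := tang (z := σ + δ) hr h0 (by linarith)
      rwa [add_sub_cancel_left] at this
  linarith

/-! ### Moments -/

section

variable {Ω : Type*} [MeasurableSpace Ω] {P : Measure Ω} [IsProbabilityMeasure P] {p : ℝ}

omit [IsProbabilityMeasure P] in
theorem int_of_memLp (hp : 2 ≤ p) {f : Ω → ℂ} (hf : MemLp f (ENNReal.ofReal p) P) :
    Integrable (fun ω => ‖f ω‖ ^ p) P := by
  have h := hf.integrable_norm_rpow (by
    rw [Ne, ENNReal.ofReal_eq_zero]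
    linarith) ENNReal.ofReal_ne_top
  rwa [ENNReal.toReal_ofReal (by linarith)] at h

/-- lower moments -/
theorem low (hp : 2 ≤ p) {f : Ω → ℂ} (hf : MemLp f (ENNReal.ofReal p) P) {q : ℝ} (hq0 : 0 ≤ q) (hqp : q ≤ p) :
    Integrable (fun ω => ‖f ω‖ ^ q) P ∧ ∫ ω, ‖f ω‖ ^ q ∂P ≤ (∫ ω, ‖f ω‖ ^ p ∂P) ^ (q / p) := by
  have hp0 : 0 < p := by linarith
  have hi := int_of_memLp hp hf
  have hθ0 : 0 ≤ q / p := by positivity
  have hθ1 : q / p ≤ 1 := (div_le_one hp0).2 hqp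
  have e1 : ∀ ω, ‖f ω‖ ^ q = (‖f ω‖ ^ p) ^ (q / p) := by
    intro ω
    rw [← Real.rpow_mul (norm_nonneg _)]
    congr 1
    field_simp
  have hint : Integrable (fun ω => ‖f ω‖ ^ q) P := by
    refine Integrable.mono' (hi.add (integrable_const (1 : ℝ))) ?_ (ae_of_all _ fun ω => ?_)
    · exact (hf.1.norm.aemeasurable.pow_const q).aestronglyMeasurable
    · rw [Real.norm_of_nonneg (Real.rpow_nonneg (norm_nonneg _) _)]
      show ‖f ω‖ ^ q ≤ ‖f ω‖ ^ p + 1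
      rcases le_total 1 ‖f ω‖ with h | h
      · have := Real.rpow_le_rpow_of_exponent_le h hqp
        linarith
      · have h1 := Real.rpow_le_one (norm_nonneg (f ω)) h hq0
        have h2 := Real.rpow_nonneg (norm_nonneg (f ω)) p
        linarith
  refine ⟨hint, ?_⟩
  simp only [e1]
  refine ConcaveOn.le_map_integral (s := Set.Ici 0) (g := fun x : ℝ => x ^ (q / p))
    (Real.concaveOn_rpow hθ0 hθ1) (Real.continuous_rpow_const hθ0).continuousOn isClosed_Ici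
    (ae_of_all _ fun ω => Real.rpow_nonneg (norm_nonneg _) _) hi ?_
  have e2 : ((fun x : ℝ => x ^ (q / p)) ∘ fun ω => ‖f ω‖ ^ p) = fun ω => ‖f ω‖ ^ q := by
    funext ω
    exact (e1 ω).symm
  rw [e2]
  exact hint

/-- one step -/
theorem stp (hp : 2 ≤ p) {c : ℝ} (hc : 0 < c) (hpw : ∀ a b : ℂ, ‖a + b‖ ^ p ≤
    ‖a‖ ^ p + p * (‖a‖ ^ (p - 2) * ((starRingEnd ℂ) a * b).re) + c * (‖a‖ ^ (p - 2) * ‖b‖ ^ 2 + ‖b‖ ^ p))
    {S X : Ω → ℂ} (hSm : Measurable S) (hXm : Measurable X) (hS : MemLp S (ENNReal.ofReal p) P)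
    (hX : MemLp X (ENNReal.ofReal p) P)
    (hind : IndepFun S X P) (hX0 : ∫ ω, X ω ∂P = 0) {δ : ℝ} (hδ : 0 ≤ δ) (hδ2 : ∫ ω, ‖X ω‖ ^ (2 : ℝ) ∂P ≤ δ)
    (hδp : ∫ ω, ‖X ω‖ ^ p ∂P ≤ δ ^ (p / 2)) :
    ∫ ω, ‖S ω + X ω‖ ^ p ∂P ≤ ∫ ω, ‖S ω‖ ^ p ∂P +
      c * ((∫ ω, ‖S ω‖ ^ p ∂P) ^ ((p - 2) / p) * δ + δ ^ (p / 2)) := by
  have hiS := int_of_memLp hp hS
  have hiX := int_of_memLp hp hX
  obtain ⟨hS2, hS2b⟩ := low hp hS (q := p - 2) (by linarith) (by linarith)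
  obtain ⟨hX2, hX2b⟩ := low hp hX (q := 2) (by norm_num) hp
  have hp0 : 0 < p := by linarith
  -- domination
  have dom : ∀ x y : ℝ, 0 ≤ x → 0 ≤ y → x ^ (p - 2) * (x * y) ≤ x ^ p + y ^ p ∧
      x ^ (p - 2) * y ^ 2 ≤ x ^ p + y ^ p := by
    intro x y hx hy
    have hxp := Real.rpow_nonneg hx p
    have hyp := Real.rpow_nonneg hy p
    rcases le_total x y with h | h
    · have h1 : x ^ (p - 2) ≤ y ^ (p - 2) := Real.rpow_le_rpow hx h (by linarith)
      have h2 := rpow_two_add hp hy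
      have h3 := Real.rpow_nonneg hy (p - 2)
      constructor
      · calc x ^ (p - 2) * (x * y) ≤ y ^ (p - 2) * (y * y) := by gcongr
          _ = y ^ (p - 2) * y ^ 2 := by ring
          _ ≤ _ := by rw [h2]; linarith
      · calc x ^ (p - 2) * y ^ 2 ≤ y ^ (p - 2) * y ^ 2 := by gcongr
          _ ≤ _ := by rw [h2]; linarith
    · have h2 := rpow_two_add hp hx
      have h3 := Real.rpow_nonneg hx (p - 2)
      constructor
      · calc x ^ (p - 2) * (x * y) ≤ x ^ (p - 2) * (x * x) := by gcongr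
          _ = x ^ (p - 2) * x ^ 2 := by ring
          _ ≤ _ := by rw [h2]; linarith
      · calc x ^ (p - 2) * y ^ 2 ≤ x ^ (p - 2) * x ^ 2 := by gcongr
          _ ≤ _ := by rw [h2]; linarith
  have hsum : Integrable (fun ω => ‖S ω‖ ^ p + ‖X ω‖ ^ p) P := hiS.add hiX
  -- the mixed terms
  obtain ⟨U, hU⟩ : ∃ U : Ω → ℂ, U = fun ω => ((‖S ω‖ ^ (p - 2) : ℝ) : ℂ) * (starRingEnd ℂ) (S ω) := ⟨_, rfl⟩
  have hφm : Measurable fun z : ℂ => ((‖z‖ ^ (p - 2) : ℝ) : ℂ) * (starRingEnd ℂ) z := by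
    refine Measurable.mul (Complex.measurable_ofReal.comp (measurable_norm.pow_const _)) ?_
    exact Complex.continuous_conj.measurable
  have hUm : Measurable U := by rw [hU]; exact hφm.comp hSm
  have hUX : IndepFun U X P := by
    have := hind.comp hφm measurable_id
    rw [hU]
    exact this
  have hUXint : Integrable (fun ω => U ω * X ω) P := by
    refine Integrable.mono' hsum (hUm.mul hXm).aestronglyMeasurable (ae_of_all _ fun ω => ?_)
    rw [norm_mul, hU]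
    simp only [norm_mul, Complex.norm_real, RCLike.norm_conj]
    rw [Real.norm_of_nonneg (Real.rpow_nonneg (norm_nonneg _) _), mul_assoc]
    exact (dom _ _ (norm_nonneg _) (norm_nonneg _)).1
  have hUX0 : ∫ ω, U ω * X ω ∂P = 0 := by
    rw [hUX.integral_fun_mul_eq_mul_integral hUm.aestronglyMeasurable hXm.aestronglyMeasurable, hX0, mul_zero]
  have hre : ∀ ω, ‖S ω‖ ^ (p - 2) * ((starRingEnd ℂ) (S ω) * X ω).re = (U ω * X ω).re := by
    intro ω
    rw [hU]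
    simp only []
    rw [mul_assoc, Complex.re_ofReal_mul]
  have hreint : Integrable (fun ω => (U ω * X ω).re) P := hUXint.re
  have hre0 : ∫ ω, (U ω * X ω).re ∂P = 0 := by
    have h1 := integral_re hUXint
    simp only [RCLike.re_eq_complex_re] at h1
    rw [h1, hUX0]
    simp
  have hind2 : IndepFun (fun ω => ‖S ω‖ ^ (p - 2)) (fun ω => ‖X ω‖ ^ (2 : ℝ)) P :=
    hind.comp (measurable_norm.pow_const (p - 2)) (measurable_norm.pow_const (2 : ℝ))
  have hmix : ∫ ω, ‖S ω‖ ^ (p - 2) * ‖X ω‖ ^ 2 ∂P =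
      (∫ ω, ‖S ω‖ ^ (p - 2) ∂P) * ∫ ω, ‖X ω‖ ^ (2 : ℝ) ∂P := by
    have h1 := hind2.integral_fun_mul_eq_mul_integral hS2.1 hX2.1
    simp only [Real.rpow_two] at h1 ⊢
    exact h1
  have hmixint : Integrable (fun ω => ‖S ω‖ ^ (p - 2) * ‖X ω‖ ^ 2) P := by
    refine Integrable.mono' hsum ?_ (ae_of_all _ fun ω => ?_)
    · exact ((hSm.norm.pow_const (p - 2)).mul (hXm.norm.pow_const 2)).aestronglyMeasurable
    · rw [Real.norm_of_nonneg (by positivity)]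
      exact (dom _ _ (norm_nonneg _) (norm_nonneg _)).2
  -- the sum
  have hi1 : Integrable (fun ω => ‖S ω‖ ^ p + p * (U ω * X ω).re) P := hiS.add (hreint.const_mul p)
  have hi2 : Integrable (fun ω => c * (‖S ω‖ ^ (p - 2) * ‖X ω‖ ^ 2 + ‖X ω‖ ^ p)) P :=
    (hmixint.add hiX).const_mul c
  have hSX : MemLp (fun ω => S ω + X ω) (ENNReal.ofReal p) P := hS.add hX
  have h1 : ∫ ω, ‖S ω + X ω‖ ^ p ∂P ≤ ∫ ω, ((‖S ω‖ ^ p + p * (U ω * X ω).re) +
      c * (‖S ω‖ ^ (p - 2) * ‖X ω‖ ^ 2 + ‖X ω‖ ^ p)) ∂P := by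
    refine integral_mono (int_of_memLp hp hSX) (hi1.add hi2) fun ω => ?_
    have := hpw (S ω) (X ω)
    rw [hre ω] at this
    exact this
  rw [integral_add hi1 hi2, integral_add hiS (hreint.const_mul p), integral_const_mul, integral_const_mul,
    integral_add hmixint hiX, hre0, mul_zero, add_zero, hmix] at h1
  refine h1.trans ?_
  have hA0 : 0 ≤ ∫ ω, ‖S ω‖ ^ (p - 2) ∂P := integral_nonneg fun ω => Real.rpow_nonneg (norm_nonneg _) _
  have hB0 : 0 ≤ ∫ ω, ‖X ω‖ ^ (2 : ℝ) ∂P := integral_nonneg fun ω => Real.rpow_nonneg (norm_nonneg _) _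
  have hN0 : 0 ≤ (∫ ω, ‖S ω‖ ^ p ∂P) ^ ((p - 2) / p) :=
    Real.rpow_nonneg (integral_nonneg fun ω => Real.rpow_nonneg (norm_nonneg _) _) _
  gcongr

/-- the real form -/
theorem main (hp : 2 ≤ p) : ∃ C : ℝ, 0 < C ∧ ∀ {Ω : Type} [MeasurableSpace Ω] {P : Measure Ω} [IsProbabilityMeasure P]
    (g : ℕ → Ω → ℂ), (∀ n, Measurable (g n)) → iIndepFun g P → (∀ n, ∫ ω, g n ω ∂P = 0) →
    (∀ n, MemLp (g n) (ENNReal.ofReal p) P) → (∀ n, ∫ ω, ‖g n ω‖ ^ p ∂P ≤ 1) → ∀ (s : Finset ℕ) (a : ℕ → ℂ),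
      ∫ ω, ‖∑ n ∈ s, g n ω * a n‖ ^ p ∂P ≤ C * (∑ n ∈ s, ‖a n‖ ^ 2) ^ (p / 2) := by
  obtain ⟨c, hc, hpw⟩ := pw hp
  have hp0 : 0 < p := by linarith
  obtain ⟨D, hD⟩ : ∃ D, D = 2 * c + (4 * c / p) ^ (p / 2) := ⟨_, rfl⟩
  have hD1 : 0 ≤ (4 * c / p) ^ (p / 2) := by positivity
  have hD0 : 0 < D := by rw [hD]; positivity
  have hD2 : 2 * c ≤ D := by rw [hD]; linarith
  have hDp : 4 * c / p ≤ D ^ (2 / p) := by
    calc 4 * c / p = ((4 * c / p) ^ (p / 2)) ^ (2 / p) := by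
          rw [← Real.rpow_mul (by positivity)]
          have : p / 2 * (2 / p) = 1 := by field_simp
          rw [this, Real.rpow_one]
      _ ≤ D ^ (2 / p) := by
          apply Real.rpow_le_rpow hD1 _ (by positivity)
          rw [hD]; linarith
  refine ⟨D, hD0, ?_⟩
  intro Ω _ P _ g hgm hgi hg0 hgL hg1 s a
  have hfm : ∀ n, Measurable (fun ω => g n ω * a n) := fun n => (hgm n).mul_const _
  have hfi : iIndepFun (fun n ω => g n ω * a n) P :=
    hgi.comp (fun n z => z * a n) fun n => measurable_id.mul_const _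
  have hfL : ∀ n, MemLp (fun ω => g n ω * a n) (ENNReal.ofReal p) P := fun n => (hgL n).mul_const (a n)
  have hSL : ∀ s : Finset ℕ, MemLp (fun ω => ∑ n ∈ s, g n ω * a n) (ENNReal.ofReal p) P := fun s =>
    memLp_finsetSum s fun n _ => hfL n
  classical
  induction s using Finset.induction_on with
  | empty =>
    simp only [Finset.sum_empty, norm_zero]
    rw [Real.zero_rpow hp0.ne', Real.zero_rpow (by positivity), mul_zero, integral_zero]
  | insert m s hm ih =>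
    obtain ⟨σ, hσ⟩ : ∃ σ, σ = ∑ n ∈ s, ‖a n‖ ^ 2 := ⟨_, rfl⟩
    obtain ⟨δ, hδ⟩ : ∃ δ, δ = ‖a m‖ ^ 2 := ⟨_, rfl⟩
    have hσ0 : 0 ≤ σ := by rw [hσ]; exact Finset.sum_nonneg fun _ _ => by positivity
    have hδ0 : 0 ≤ δ := by rw [hδ]; positivity
    have hind : IndepFun (fun ω => ∑ n ∈ s, g n ω * a n) (fun ω => g m ω * a m) P := by
      have h := hfi.indepFun_finsetSum_of_notMem hfm hm
      have e : (∑ j ∈ s, fun ω => g j ω * a j) = fun ω => ∑ n ∈ s, g n ω * a n := by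
        funext ω
        rw [Finset.sum_apply]
      rwa [e] at h
    have hX0 : ∫ ω, g m ω * a m ∂P = 0 := by
      rw [integral_mul_const, hg0 m, zero_mul]
    have hXp : ∫ ω, ‖g m ω * a m‖ ^ p ∂P ≤ δ ^ (p / 2) := by
      have e : ∀ ω, ‖g m ω * a m‖ ^ p = ‖g m ω‖ ^ p * ‖a m‖ ^ p := fun ω => by
        rw [norm_mul, Real.mul_rpow (norm_nonneg _) (norm_nonneg _)]
      have e2 : δ ^ (p / 2) = ‖a m‖ ^ p := by
        rw [hδ, ← Real.rpow_two, ← Real.rpow_mul (norm_nonneg _)]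
        congr 1
        ring
      simp only [e]
      rw [integral_mul_const, e2]
      have := Real.rpow_nonneg (norm_nonneg (a m)) p
      nlinarith [hg1 m]
    have hX2 : ∫ ω, ‖g m ω * a m‖ ^ (2 : ℝ) ∂P ≤ δ := by
      have h1 := (low hp (hfL m) (q := 2) (by norm_num) hp).2
      refine h1.trans ?_
      have h2 : (∫ ω, ‖g m ω * a m‖ ^ p ∂P) ^ (2 / p) ≤ (δ ^ (p / 2)) ^ (2 / p) :=
        Real.rpow_le_rpow (integral_nonneg fun ω => Real.rpow_nonneg (norm_nonneg _) _) hXp (by positivity)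
      rw [← Real.rpow_mul hδ0] at h2
      have h3 : p / 2 * (2 / p) = 1 := by field_simp
      rwa [h3, Real.rpow_one] at h2
    have hst := stp hp hc hpw (Finset.measurable_sum s fun n _ => hfm n) (hfm m) (hSL s) (hfL m) hind hX0 hδ0
      hX2 hXp
    have e1 : ∀ ω, ∑ n ∈ insert m s, g n ω * a n = (∑ n ∈ s, g n ω * a n) + g m ω * a m := fun ω => by
      rw [Finset.sum_insert hm, add_comm]
    simp only [e1]
    rw [Finset.sum_insert hm, add_comm (‖a m‖ ^ 2), ← hσ, ← hδ]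
    refine hst.trans ?_
    rw [← hσ] at ih
    obtain ⟨N, hN⟩ : ∃ N, N = ∫ ω, ‖∑ n ∈ s, g n ω * a n‖ ^ p ∂P := ⟨_, rfl⟩
    rw [← hN] at ih ⊢
    have hN0 : 0 ≤ N := by rw [hN]; exact integral_nonneg fun ω => Real.rpow_nonneg (norm_nonneg _) _
    have h1 : N ^ ((p - 2) / p) ≤ D ^ ((p - 2) / p) * σ ^ (p / 2 - 1) := by
      calc N ^ ((p - 2) / p) ≤ (D * σ ^ (p / 2)) ^ ((p - 2) / p) :=
            Real.rpow_le_rpow hN0 ih (div_nonneg (by linarith) hp0.le)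
        _ = D ^ ((p - 2) / p) * σ ^ (p / 2 - 1) := by
            rw [Real.mul_rpow hD0.le (Real.rpow_nonneg hσ0 _), ← Real.rpow_mul hσ0]
            congr 2
            field_simp
    have h2 : D ^ ((p - 2) / p) * (4 * c / p) ≤ D := by
      calc D ^ ((p - 2) / p) * (4 * c / p) ≤ D ^ ((p - 2) / p) * D ^ (2 / p) := by gcongr
        _ = D := by
            rw [← Real.rpow_add hD0]
            have : (p - 2) / p + 2 / p = 1 := by field_simp; ring
            rw [this, Real.rpow_one]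
    have h3 := conv (r := p / 2) (by linarith) hσ0 hδ0
    have h4 : c * (N ^ ((p - 2) / p) * δ) ≤ D * (p / 2 / 2 * (σ ^ (p / 2 - 1) * δ)) := by
      have h5 : 0 ≤ σ ^ (p / 2 - 1) * δ := mul_nonneg (Real.rpow_nonneg hσ0 _) hδ0
      calc c * (N ^ ((p - 2) / p) * δ) ≤ c * ((D ^ ((p - 2) / p) * σ ^ (p / 2 - 1)) * δ) := by gcongr
        _ = (D ^ ((p - 2) / p) * (4 * c / p)) * (p / 2 / 2 * (σ ^ (p / 2 - 1) * δ)) := by
            field_simp
            ring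
        _ ≤ D * (p / 2 / 2 * (σ ^ (p / 2 - 1) * δ)) := by gcongr
    have h6 : c * δ ^ (p / 2) ≤ D * (δ ^ (p / 2) / 2) := by
      have := Real.rpow_nonneg hδ0 (p / 2)
      nlinarith
    have h7 := mul_le_mul_of_nonneg_left h3 hD0.le
    rw [mul_add, mul_add] at h7
    rw [mul_add]
    linarith

end

/-- the form with lower integrals -/
theorem mz (p : ℝ) (hp : 2 ≤ p) : ∃ C : ℝ, 0 < C ∧
    ∀ (Ω : Type) (_ : MeasurableSpace Ω) (P : Measure Ω), IsProbabilityMeasure P →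
    ∀ g : ℕ → Ω → ℂ, (∀ n, Measurable (g n)) → iIndepFun g P → (∀ n, ∫ ω, g n ω ∂P = 0) →
    (∀ n, ∫⁻ ω, ‖g n ω‖ₑ ^ p ∂P ≤ 1) → ∀ (s : Finset ℕ) (a : ℕ → ℂ),
      ∫⁻ ω, ‖∑ n ∈ s, g n ω * a n‖ₑ ^ p ∂P ≤
        ENNReal.ofReal C * (∑ n ∈ s, ‖a n‖ₑ ^ (2 : ℝ)) ^ (p / 2) := by
  obtain ⟨C, hC, h⟩ := main hp
  have hp0 : 0 < p := by linarith
  refine ⟨C, hC, fun Ω _ P _ g hgm hgi hg0 hg1 s a => ?_⟩
  have hL : ∀ n, MemLp (g n) (ENNReal.ofReal p) P := by
    intro n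
    refine ⟨(hgm n).aestronglyMeasurable, ?_⟩
    rw [eLpNorm_lt_top_iff_lintegral_rpow_enorm_lt_top (by
      rw [Ne, ENNReal.ofReal_eq_zero]; linarith) ENNReal.ofReal_ne_top, ENNReal.toReal_ofReal hp0.le]
    exact (hg1 n).trans_lt ENNReal.one_lt_top
  have hconv : ∀ f : Ω → ℂ, MemLp f (ENNReal.ofReal p) P →
      ∫⁻ ω, ‖f ω‖ₑ ^ p ∂P = ENNReal.ofReal (∫ ω, ‖f ω‖ ^ p ∂P) := by
    intro f hf
    rw [ofReal_integral_eq_lintegral_ofReal (int_of_memLp hp hf)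
      (ae_of_all _ fun ω => Real.rpow_nonneg (norm_nonneg _) _)]
    refine lintegral_congr fun ω => ?_
    rw [← ofReal_norm, ENNReal.ofReal_rpow_of_nonneg (norm_nonneg _) hp0.le]
  have hg1' : ∀ n, ∫ ω, ‖g n ω‖ ^ p ∂P ≤ 1 := by
    intro n
    have h1 := hg1 n
    rw [hconv _ (hL n)] at h1
    rwa [ENNReal.ofReal_le_one] at h1
  have hSL : MemLp (fun ω => ∑ n ∈ s, g n ω * a n) (ENNReal.ofReal p) P :=
    memLp_finsetSum s fun n _ => (hL n).mul_const (a n)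
  rw [hconv _ hSL]
  have h2 := h g hgm hgi hg0 hL hg1' s a
  have e1 : (∑ n ∈ s, ‖a n‖ₑ ^ (2 : ℝ)) ^ (p / 2) = ENNReal.ofReal ((∑ n ∈ s, ‖a n‖ ^ 2) ^ (p / 2)) := by
    rw [← ENNReal.ofReal_rpow_of_nonneg (Finset.sum_nonneg fun _ _ => by positivity) (by positivity),
      ENNReal.ofReal_sum_of_nonneg fun _ _ => by positivity]
    congr 1
    refine Finset.sum_congr rfl fun n _ => ?_
    rw [← ofReal_norm, ENNReal.ofReal_rpow_of_nonneg (norm_nonneg _) (by norm_num), Real.rpow_two]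
  rw [e1, ← ENNReal.ofReal_mul hC.le]
  exact ENNReal.ofReal_le_ofReal h2

end Pool.Agent.K9h21.MZ
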