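import Mathlib

/-!
# Auxiliary results on the half-plane and the punctured disc

(Leaves for the punctured disc theorem.)
-/

set_option autoImplicit false

open Set Filter Topology Metric

namespace Pool.Agent.K9h21.PD

/-- a zero-free holomorphic function on a disc has a logarithm -/
theorem exists_log_ball {u : ℂ → ℂ} {z0 : ℂ} {ρ : ℝ} (hu : DifferentiableOn ℂ u (ball z0 ρ))
    (h0 : ∀ z ∈ ball z0 ρ, u z ≠ 0) (hρ : 0 < ρ) :
    ∃ g : ℂ → ℂ, DifferentiableOn ℂ g (ball z0 ρ) ∧ ∀ z ∈ ball z0 ρ, Complex.exp (g z) = u z := by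
  have hd : DifferentiableOn ℂ (fun z => deriv u z / u z) (ball z0 ρ) :=
    (hu.deriv isOpen_ball).div hu h0
  obtain ⟨F, hF⟩ := hd.isExactOn_ball
  have hFd : DifferentiableOn ℂ F (ball z0 ρ) := fun z hz =>
    (hF z hz).differentiableAt.differentiableWithinAt
  have hc : ∀ z ∈ ball z0 ρ, u z * Complex.exp (- F z) = u z0 * Complex.exp (- F z0) := by
    intro z hz
    refine isOpen_ball.is_const_of_deriv_eq_zero (convex_ball z0 ρ).isPreconnected
      (f := fun z => u z * Complex.exp (- F z)) (hu.mul hFd.neg.cexp) ?_ hz (mem_ball_self hρ)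
    intro w hw
    have h1 : HasDerivAt u (deriv u w) w := (hu.differentiableAt (isOpen_ball.mem_nhds hw)).hasDerivAt
    have h2 : HasDerivAt (fun z => Complex.exp (- F z)) (Complex.exp (- F w) * -(deriv u w / u w)) w :=
      (hF w hw).neg.cexp
    have h3 := (h1.mul h2).deriv
    rw [Pi.zero_apply]
    refine Eq.trans h3 ?_
    have := h0 w hw
    field_simp
    ring
  have hne : u z0 * Complex.exp (- F z0) ≠ 0 :=
    mul_ne_zero (h0 z0 (mem_ball_self hρ)) (Complex.exp_ne_zero _)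
  refine ⟨fun z => F z + Complex.log (u z0 * Complex.exp (- F z0)), hFd.add_const _, ?_⟩
  intro z hz
  rw [Complex.exp_add, Complex.exp_log hne, ← hc z hz, Complex.exp_neg]
  field_simp

theorem cay_mem {s : ℂ} (hs : 0 < s.re) : (s - 1) / (s + 1) ∈ ball (0 : ℂ) 1 ∧ s + 1 ≠ 0 := by
  have hne : s + 1 ≠ 0 := by
    intro h
    have := congrArg Complex.re h
    simp only [Complex.add_re, Complex.one_re, Complex.zero_re] at this
    linarith
  refine ⟨?_, hne⟩
  rw [mem_ball_zero_iff, norm_div, div_lt_one (norm_pos_iff.2 hne)]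
  have e1 : ‖s - 1‖ ^ 2 < ‖s + 1‖ ^ 2 := by
    rw [← Complex.normSq_eq_norm_sq, ← Complex.normSq_eq_norm_sq, Complex.normSq_apply,
      Complex.normSq_apply]
    simp only [Complex.sub_re, Complex.sub_im, Complex.add_re, Complex.add_im, Complex.one_re, Complex.one_im]
    nlinarith
  exact lt_of_pow_lt_pow_left₀ 2 (norm_nonneg _) e1

theorem cay_inv {x : ℂ} (hx : x ∈ ball (0 : ℂ) 1) : 0 < ((1 + x) / (1 - x)).re ∧ 1 - x ≠ 0 := by
  rw [mem_ball_zero_iff] at hx
  have hne : 1 - x ≠ 0 := by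
    intro h
    have : x = 1 := by
      rw [sub_eq_zero] at h
      exact h.symm
    rw [this, norm_one] at hx
    exact lt_irrefl _ hx
  refine ⟨?_, hne⟩
  rw [Complex.div_re, ← add_div]
  have h1 : 0 < Complex.normSq (1 - x) := Complex.normSq_pos.2 hne
  apply div_pos _ h1
  have h2 : ‖x‖ ^ 2 < 1 := by
    have := norm_nonneg x
    nlinarith
  rw [← Complex.normSq_eq_norm_sq, Complex.normSq_apply] at h2
  simp only [Complex.sub_re, Complex.sub_im, Complex.add_re, Complex.add_im, Complex.one_re, Complex.one_im]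
  nlinarith

/-- a zero-free holomorphic function on the right half-plane has a logarithm -/
theorem exists_log_half {u : ℂ → ℂ} (hu : DifferentiableOn ℂ u {s : ℂ | 0 < s.re})
    (h0 : ∀ s : ℂ, 0 < s.re → u s ≠ 0) :
    ∃ g : ℂ → ℂ, DifferentiableOn ℂ g {s : ℂ | 0 < s.re} ∧ ∀ s : ℂ, 0 < s.re → Complex.exp (g s) = u s := by
  have hphi : DifferentiableOn ℂ (fun x : ℂ => (1 + x) / (1 - x)) (ball 0 1) := by
    intro x hx
    have h1 := (cay_inv hx).2
    exact (((differentiableAt_id.const_add 1).div (differentiableAt_id.const_sub 1) h1)).differentiableWithinAt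
  have hw : DifferentiableOn ℂ (fun x : ℂ => u ((1 + x) / (1 - x))) (ball 0 1) :=
    hu.comp hphi fun x hx => (cay_inv hx).1
  obtain ⟨G, hG, hGe⟩ := exists_log_ball hw (fun x hx => h0 _ (cay_inv hx).1) one_pos
  have hpsi : DifferentiableOn ℂ (fun s : ℂ => (s - 1) / (s + 1)) {s : ℂ | 0 < s.re} := by
    intro s hs
    have h1 := (cay_mem (s := s) hs).2
    have h2 : DifferentiableAt ℂ (fun s : ℂ => (s - 1) / (s + 1)) s :=
      DifferentiableAt.div (by fun_prop) (by fun_prop) h1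
    exact h2.differentiableWithinAt
  refine ⟨fun s => G ((s - 1) / (s + 1)), hG.comp hpsi fun s hs => (cay_mem hs).1, fun s hs => ?_⟩
  rw [hGe _ (cay_mem hs).1]
  congr 1
  have h1 := (cay_mem hs).2
  have h2 := (cay_inv (cay_mem hs).1).2
  rw [div_eq_iff h2]
  field_simp
  ring

theorem half_convex : Convex ℝ {s : ℂ | 0 < s.re} := convex_halfSpace_re_gt 0

/-- an integer valued continuous function on a connected set is constant -/
theorem int_const {S : Set ℂ} (hS : IsPreconnected S) {f : ℂ → ℝ} (hf : ContinuousOn f S)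
    (h : ∀ s ∈ S, ∃ m : ℤ, f s = m) : ∀ s ∈ S, ∀ s' ∈ S, f s = f s' := by
  have key : ∀ s ∈ S, ∀ s' ∈ S, ¬ f s < f s' := by
    intro s hs s' hs' hlt
    obtain ⟨m, hm⟩ := h s hs
    obtain ⟨m', hm'⟩ := h s' hs'
    rw [hm, hm'] at hlt
    have h1 : m < m' := by exact_mod_cast hlt
    have h2 : (m : ℝ) + 1 ≤ m' := by exact_mod_cast h1
    have h3 : (m : ℝ) + 1 / 2 ∈ Icc (f s) (f s') := by
      rw [hm, hm']
      constructor <;> linarith
    obtain ⟨z, hz, hzf⟩ := hS.intermediate_value hs hs' hf h3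
    obtain ⟨k, hk⟩ := h z hz
    rw [hk] at hzf
    have h4 : (2 * k : ℝ) = 2 * m + 1 := by linarith
    have h5 : 2 * k = 2 * m + 1 := by exact_mod_cast h4
    omega
  intro s hs s' hs'
  rcases lt_trichotomy (f s) (f s') with h1 | h1 | h1
  · exact absurd h1 (key s hs s' hs')
  · exact h1
  · exact absurd h1 (key s' hs' s hs)

theorem int_shift {g : ℂ → ℂ} (hg : ContinuousOn g {s : ℂ | 0 < s.re}) {τ : ℝ}
    (h : ∀ s : ℂ, 0 < s.re → Complex.exp (g (s + τ * Complex.I)) = Complex.exp (g s)) :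
    ∃ m : ℤ, ∀ s : ℂ, 0 < s.re → g (s + τ * Complex.I) = g s + m * (2 * Real.pi * Complex.I) := by
  have hre : ∀ s : ℂ, 0 < s.re → 0 < (s + τ * Complex.I).re := fun s hs => by simpa using hs
  have hc : ContinuousOn (fun s => ((g (s + τ * Complex.I) - g s) / (2 * Real.pi * Complex.I)).re)
      {s : ℂ | 0 < s.re} := by
    refine Complex.continuous_re.comp_continuousOn ?_
    refine ContinuousOn.div_const (ContinuousOn.sub ?_ hg) _
    exact hg.comp (continuous_id.add continuous_const).continuousOn fun s hs => hre s hs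
  have hne : (2 * Real.pi * Complex.I : ℂ) ≠ 0 := by
    simp [Real.pi_ne_zero, Complex.I_ne_zero]
  have hm : ∀ s ∈ {s : ℂ | 0 < s.re}, ∃ m : ℤ, g (s + τ * Complex.I) = g s + m * (2 * Real.pi * Complex.I) :=
    fun s hs => Complex.exp_eq_exp_iff_exists_int.1 (h s hs)
  have hv : ∀ s : ℂ, ∀ m : ℤ, g (s + τ * Complex.I) = g s + m * (2 * Real.pi * Complex.I) →
      ((g (s + τ * Complex.I) - g s) / (2 * Real.pi * Complex.I)).re = m := by
    intro s m hs
    rw [hs, add_sub_cancel_left, mul_div_assoc, div_self hne, mul_one]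
    simp
  have hconst := int_const half_convex.isPreconnected hc
    (fun s hs => by obtain ⟨m, h1⟩ := hm s hs; exact ⟨m, hv s m h1⟩)
  obtain ⟨m, h1⟩ := hm 1 (by simp)
  refine ⟨m, fun s hs => ?_⟩
  obtain ⟨m', h2⟩ := hm s hs
  have h3 := hconst s hs 1 (by simp)
  rw [hv s m' h2, hv 1 m h1] at h3
  have h4 : m' = m := by exact_mod_cast h3
  rw [h2, h4]

/-- periodic functions on the half-plane -/
theorem per_exp {β : Type*} {V : ℂ → β} (hper : ∀ s : ℂ, 0 < s.re → V (s + 2 * Real.pi * Complex.I) = V s)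
    {s s' : ℂ} (hs : 0 < s.re) (h : Complex.exp s = Complex.exp s') : V s = V s' := by
  have key : ∀ (m : ℕ) (s : ℂ), 0 < s.re → V (s + m * (2 * Real.pi * Complex.I)) = V s := by
    intro m
    induction m with
    | zero => intro s _; simp
    | succ m ih =>
      intro s hs
      have h1 := hper (s + m * (2 * Real.pi * Complex.I)) (by simpa using hs)
      rw [ih s hs] at h1
      rw [← h1]
      congr 1
      push_cast
      ring
  obtain ⟨m, hm⟩ := Complex.exp_eq_exp_iff_exists_int.1 h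
  have hs' : 0 < s'.re := by
    rw [hm] at hs
    simpa using hs
  rcases le_total 0 m with h0 | h0
  · obtain ⟨k, rfl⟩ := Int.eq_ofNat_of_zero_le h0
    rw [hm]
    exact key k s' hs'
  · obtain ⟨k, hk⟩ := Int.exists_eq_neg_ofNat h0
    have h1 : s' = s + k * (2 * Real.pi * Complex.I) := by
      rw [hm, hk]
      push_cast
      ring
    rw [h1]
    exact (key k s hs).symm

section

variable {ι : Type*} [Fintype ι]

/-- the function on the punctured disc -/
noncomputable def pf (V : ℂ → ι → ℂ) (M : ℕ) (x : ℂ) : ι → ℂ := x ^ M • V (-Complex.log x)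

theorem pf_diff {V : ℂ → ι → ℂ} (hV : DifferentiableOn ℂ V {s : ℂ | 0 < s.re})
    (hper : ∀ s : ℂ, 0 < s.re → V (s + 2 * Real.pi * Complex.I) = V s) (M : ℕ) {x : ℂ} (hx0 : x ≠ 0)
    (hx1 : ‖x‖ < 1) : DifferentiableAt ℂ (pf V M) x := by
  have hO : IsOpen {s : ℂ | 0 < s.re} := isOpen_lt continuous_const Complex.continuous_re
  have hx0' : 0 < ‖x‖ := norm_pos_iff.2 hx0
  have hlre : ∀ y : ℂ, y ≠ 0 → ‖y‖ < 1 → 0 < (-Complex.log y).re := by
    intro y hy hy1
    rw [Complex.neg_re, Complex.log_re]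
    have := Real.log_neg (norm_pos_iff.2 hy) hy1
    linarith
  -- the local branch
  have hb : DifferentiableAt ℂ (fun y : ℂ => -(Complex.log x + Complex.log (y / x))) x := by
    have h1 : DifferentiableAt ℂ (fun y : ℂ => y / x) x := differentiableAt_id.div_const x
    have h2 : x / x ∈ Complex.slitPlane := by rw [div_self hx0]; exact Complex.one_mem_slitPlane
    exact ((h1.clog h2).const_add _).neg
  have hbx : -(Complex.log x + Complex.log (x / x)) = -Complex.log x := by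
    rw [div_self hx0, Complex.log_one, add_zero]
  have hVx : DifferentiableAt ℂ V (-(Complex.log x + Complex.log (x / x))) := by
    rw [hbx]
    exact hV.differentiableAt (hO.mem_nhds (hlre x hx0 hx1))
  have hcomp : DifferentiableAt ℂ (fun y : ℂ => y ^ M • V (-(Complex.log x + Complex.log (y / x)))) x := by
    have h3 : DifferentiableAt ℂ (fun y : ℂ => V (-(Complex.log x + Complex.log (y / x)))) x :=
      DifferentiableAt.comp x hVx hb
    exact (differentiableAt_id.pow M).smul h3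
  refine hcomp.congr_of_eventuallyEq ?_
  have hev : ∀ᶠ y : ℂ in 𝓝 x, y ≠ 0 ∧ ‖y‖ < 1 :=
    (isOpen_compl_singleton.mem_nhds hx0 : {y : ℂ | y ≠ 0} ∈ 𝓝 x) |> fun h1 =>
      (Filter.Eventually.and h1 ((continuous_norm.tendsto x).eventually (gt_mem_nhds hx1)))
  filter_upwards [hev] with y hy
  unfold pf
  congr 1
  refine per_exp hper (hlre y hy.1 hy.2) ?_
  rw [Complex.exp_neg, Complex.exp_neg, Complex.exp_add, Complex.exp_log hy.1, Complex.exp_log hx0,
    Complex.exp_log (div_ne_zero hy.1 hx0), mul_div_cancel₀ _ hx0]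

theorem dom_of_growth {V : ℂ → ι → ℂ} {σ N K : ℝ} (hV : DifferentiableOn ℂ V {s : ℂ | 0 < s.re})
    (hne : ∀ s : ℂ, 0 < s.re → V s ≠ 0)
    (hper : ∀ s : ℂ, 0 < s.re → V (s + 2 * Real.pi * Complex.I) = V s)
    (hb : ∀ s : ℂ, σ < s.re → ‖V s‖ ≤ K * Real.exp (N * s.re)) :
    ∃ (j : ι) (C σ' : ℝ), 0 ≤ σ' ∧ ∀ s : ℂ, σ' < s.re → ‖V s‖ ≤ C * ‖V s j‖ := by
  obtain ⟨M, hM⟩ := exists_nat_ge N
  obtain ⟨σ1, hσ1⟩ : ∃ σ1, σ1 = max σ 0 := ⟨_, rfl⟩
  have hσ10 : 0 ≤ σ1 := by rw [hσ1]; exact le_max_right _ _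
  have hσσ : σ ≤ σ1 := by rw [hσ1]; exact le_max_left _ _
  obtain ⟨ρ, hρ⟩ : ∃ ρ, ρ = Real.exp (-σ1) := ⟨_, rfl⟩
  have hρ0 : 0 < ρ := by rw [hρ]; exact Real.exp_pos _
  have hρ1 : ρ ≤ 1 := by rw [hρ, Real.exp_le_one_iff]; linarith
  have hlog : ∀ x : ℂ, x ≠ 0 → ‖x‖ < ρ → σ1 < (-Complex.log x).re := by
    intro x hx hxρ
    rw [Complex.neg_re, Complex.log_re]
    have h1 := Real.log_lt_log (norm_pos_iff.2 hx) hxρ
    rw [hρ, Real.log_exp] at h1
    linarith
  -- the function is bounded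
  have hbd : ∀ x : ℂ, x ≠ 0 → ‖x‖ < ρ → ‖pf V M x‖ ≤ |K| := by
    intro x hx hxρ
    have h1 := hlog x hx hxρ
    have h2 := hb (-Complex.log x) (by linarith)
    have hxp := norm_pos_iff.2 hx
    unfold pf
    rw [norm_smul, norm_pow]
    have h3 : K * Real.exp (N * (-Complex.log x).re) ≤ |K| * Real.exp (M * (-Complex.log x).re) := by
      have h4 : Real.exp (N * (-Complex.log x).re) ≤ Real.exp (M * (-Complex.log x).re) := by
        refine Real.exp_le_exp.2 (mul_le_mul_of_nonneg_right hM (by linarith))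
      calc K * Real.exp (N * (-Complex.log x).re) ≤ |K| * Real.exp (N * (-Complex.log x).re) :=
            mul_le_mul_of_nonneg_right (le_abs_self K) (Real.exp_pos _).le
        _ ≤ _ := mul_le_mul_of_nonneg_left h4 (abs_nonneg _)
    have h5 : ‖x‖ ^ M * Real.exp (M * (-Complex.log x).re) = 1 := by
      rw [Complex.neg_re, Complex.log_re, ← Real.rpow_natCast, Real.rpow_def_of_pos hxp, ← Real.exp_add]
      have : Real.log ‖x‖ * (M : ℝ) + (M : ℝ) * -Real.log ‖x‖ = 0 := by ring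
      rw [this, Real.exp_zero]
    calc ‖x‖ ^ M * ‖V (-Complex.log x)‖ ≤ ‖x‖ ^ M * (|K| * Real.exp (M * (-Complex.log x).re)) :=
          mul_le_mul_of_nonneg_left (h2.trans h3) (by positivity)
      _ = |K| * (‖x‖ ^ M * Real.exp (M * (-Complex.log x).re)) := by ring
      _ = |K| := by rw [h5, mul_one]
  have hd : DifferentiableOn ℂ (pf V M) (ball 0 ρ \ {0}) := by
    rintro x ⟨hx, hx0⟩
    rw [mem_ball_zero_iff] at hx
    exact (pf_diff hV hper M hx0 (hx.trans_le hρ1)).differentiableWithinAt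
  have hbdd : BddAbove (norm ∘ pf V M '' (ball 0 ρ \ {0})) := by
    refine ⟨|K|, ?_⟩
    rintro _ ⟨x, ⟨hx, hx0⟩, rfl⟩
    rw [mem_ball_zero_iff] at hx
    exact hbd x hx0 hx
  have hext := Complex.differentiableOn_update_limUnder_of_bddAbove (ball_mem_nhds (0 : ℂ) hρ0) hd hbdd
  set Y : ℂ → ι → ℂ := Function.update (pf V M) 0 (limUnder (𝓝[≠] (0 : ℂ)) (pf V M)) with hY
  have hYx : ∀ x : ℂ, x ≠ 0 → Y x = pf V M x := fun x hx => Function.update_of_ne hx _ _
  have han : AnalyticAt ℂ Y 0 := hext.analyticAt (ball_mem_nhds (0 : ℂ) hρ0)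
  have hYne : ∀ x : ℂ, x ≠ 0 → ‖x‖ < ρ → Y x ≠ 0 := by
    intro x hx hxρ
    rw [hYx x hx]
    unfold pf
    refine smul_ne_zero (pow_ne_zero _ hx) (hne _ ?_)
    have := hlog x hx hxρ
    linarith
  have hnz : ¬ ∀ᶠ z in 𝓝 (0 : ℂ), Y z = 0 := by
    intro hcon
    have h1 : ∀ᶠ z in 𝓝[≠] (0 : ℂ), Y z = 0 := hcon.filter_mono nhdsWithin_le_nhds
    have h2 : ∀ᶠ z in 𝓝[≠] (0 : ℂ), ‖z‖ < ρ :=
      ((continuous_norm.tendsto (0 : ℂ)).eventually (gt_mem_nhds (by simpa using hρ0))).filter_mono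
        nhdsWithin_le_nhds
    have h3 : ∀ᶠ z in 𝓝[≠] (0 : ℂ), z ≠ 0 := eventually_mem_nhdsWithin
    obtain ⟨z, hz1, hz2, hz3⟩ := (h1.and (h2.and h3)).exists
    exact hYne z hz3 hz2 hz1
  obtain ⟨m, Y2, hY2a, hY20, hY2⟩ := (han.exists_eventuallyEq_pow_smul_nonzero_iff).2 hnz
  obtain ⟨j, hj⟩ : ∃ j, Y2 0 j ≠ 0 := by
    by_contra hcon
    push Not at hcon
    exact hY20 (funext hcon)
  have hjp : 0 < ‖Y2 0 j‖ := norm_pos_iff.2 hj
  obtain ⟨C, hC⟩ : ∃ C, C = ‖Y2 0‖ / ‖Y2 0 j‖ + 1 := ⟨_, rfl⟩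
  have hC0 : ‖Y2 0‖ < C * ‖Y2 0 j‖ := by
    rw [hC, add_mul, div_mul_cancel₀ _ hjp.ne', one_mul]
    linarith
  have hcont : ContinuousAt Y2 0 := hY2a.continuousAt
  have hcj : ContinuousAt (fun z => Y2 z j) 0 := (continuous_apply j).continuousAt.comp hcont
  have hev : ∀ᶠ z in 𝓝 (0 : ℂ), ‖Y2 z‖ < C * ‖Y2 z j‖ :=
    hcont.norm.eventually_lt (hcj.norm.const_mul C) hC0
  have hall := hev.and hY2
  rw [Metric.eventually_nhds_iff_ball] at hall
  obtain ⟨η, hη, hball⟩ := hall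
  obtain ⟨η1, hη1⟩ : ∃ η1, η1 = min η ρ := ⟨_, rfl⟩
  have hη10 : 0 < η1 := by rw [hη1]; exact lt_min hη hρ0
  refine ⟨j, C, max (-Real.log η1) 0, le_max_right _ _, fun s hs => ?_⟩
  have hs0 : 0 < s.re := lt_of_le_of_lt (le_max_right _ _) hs
  have hsη : -Real.log η1 < s.re := lt_of_le_of_lt (le_max_left _ _) hs
  obtain ⟨x, hx⟩ : ∃ x, x = Complex.exp (-s) := ⟨_, rfl⟩
  have hx0 : x ≠ 0 := by rw [hx]; exact Complex.exp_ne_zero _
  have hxn : ‖x‖ < η1 := by
    rw [hx, Complex.norm_exp, Complex.neg_re]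
    calc Real.exp (-s.re) < Real.exp (Real.log η1) := Real.exp_lt_exp.2 (by linarith)
      _ = η1 := Real.exp_log hη10
  have hVs : V s = V (-Complex.log x) := by
    refine per_exp hper hs0 ?_
    rw [Complex.exp_neg, Complex.exp_log hx0, hx, Complex.exp_neg, inv_inv]
  obtain ⟨b1, b2⟩ := hball x (by
    rw [mem_ball_zero_iff]
    exact hxn.trans_le (by rw [hη1]; exact min_le_left _ _))
  rw [hYx x hx0, sub_zero] at b2
  unfold pf at b2
  have hxp := norm_pos_iff.2 hx0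
  have hxM : 0 < ‖x‖ ^ M := by positivity
  have hn : ‖x‖ ^ M * ‖V (-Complex.log x)‖ = ‖x‖ ^ m * ‖Y2 x‖ := by
    have := congrArg norm b2
    rwa [norm_smul, norm_smul, norm_pow, norm_pow] at this
  have hnj : ‖x‖ ^ M * ‖V (-Complex.log x) j‖ = ‖x‖ ^ m * ‖Y2 x j‖ := by
    have := congrArg norm (congrFun b2 j)
    simp only [Pi.smul_apply, smul_eq_mul, norm_mul, norm_pow] at this
    exact this
  rw [hVs]
  have h1 : ‖x‖ ^ M * ‖V (-Complex.log x)‖ ≤ ‖x‖ ^ M * (C * ‖V (-Complex.log x) j‖) := by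
    calc ‖x‖ ^ M * ‖V (-Complex.log x)‖ = ‖x‖ ^ m * ‖Y2 x‖ := hn
      _ ≤ ‖x‖ ^ m * (C * ‖Y2 x j‖) := mul_le_mul_of_nonneg_left b1.le (by positivity)
      _ = C * (‖x‖ ^ m * ‖Y2 x j‖) := by ring
      _ = C * (‖x‖ ^ M * ‖V (-Complex.log x) j‖) := by rw [hnj]
      _ = _ := by ring
  exact le_of_mul_le_mul_left h1 hxM

theorem ext_of_dom {f : ℂ → ι → ℂ} {r C : ℝ} {j : ι} (hr : 0 < r)
    (hf : DifferentiableOn ℂ f {z : ℂ | 0 < ‖z‖ ∧ ‖z‖ < r})
    (hne : ∀ z : ℂ, 0 < ‖z‖ → ‖z‖ < r → f z ≠ 0)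
    (hdom : ∀ z : ℂ, 0 < ‖z‖ → ‖z‖ < r → ‖f z‖ ≤ C * ‖f z j‖) :
    ∃ F : ℂ → ι → ℂ, DifferentiableOn ℂ F (Metric.ball 0 r) ∧ (∀ z ∈ Metric.ball (0 : ℂ) r, F z ≠ 0) ∧
      ∀ z : ℂ, 0 < ‖z‖ → ‖z‖ < r → ∀ i i', F z i * f z i' = F z i' * f z i := by
  have hj : ∀ z : ℂ, 0 < ‖z‖ → ‖z‖ < r → f z j ≠ 0 := by
    intro z h1 h2 h3
    have h4 := hdom z h1 h2
    rw [h3, norm_zero, mul_zero] at h4
    exact hne z h1 h2 (norm_le_zero_iff.1 h4)
  have hset : ball (0 : ℂ) r \ {0} = {z : ℂ | 0 < ‖z‖ ∧ ‖z‖ < r} := by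
    ext z
    simp only [Set.mem_sdiff, mem_ball_zero_iff, mem_singleton_iff, Set.mem_ofPred_eq, norm_pos_iff]
    exact and_comm
  obtain ⟨h, hh⟩ : ∃ h : ℂ → ι → ℂ, h = fun z => (f z j)⁻¹ • f z := ⟨_, rfl⟩
  have hd : DifferentiableOn ℂ h (ball (0 : ℂ) r \ {0}) := by
    rw [hset, hh]
    have h1 : DifferentiableOn ℂ (fun z => f z j) {z : ℂ | 0 < ‖z‖ ∧ ‖z‖ < r} :=
      fun z hz => (differentiableWithinAt_pi.1 (hf z hz)) j
    exact (h1.inv fun z hz => hj z hz.1 hz.2).smul hf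
  have hb : BddAbove (norm ∘ h '' (ball (0 : ℂ) r \ {0})) := by
    refine ⟨C, ?_⟩
    rintro _ ⟨z, hz, rfl⟩
    rw [hset] at hz
    have h1 := norm_pos_iff.2 (hj z hz.1 hz.2)
    show ‖h z‖ ≤ C
    rw [hh]
    simp only [norm_smul, norm_inv]
    rw [inv_mul_le_iff₀ h1, mul_comm]
    exact hdom z hz.1 hz.2
  have hext := Complex.differentiableOn_update_limUnder_of_bddAbove (ball_mem_nhds (0 : ℂ) hr) hd hb
  set F : ℂ → ι → ℂ := Function.update h 0 (limUnder (𝓝[≠] (0 : ℂ)) h) with hF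
  have hFz : ∀ z : ℂ, z ≠ 0 → F z = h z := fun z hz => Function.update_of_ne hz _ _
  have hFj : ∀ z : ℂ, 0 < ‖z‖ → ‖z‖ < r → F z j = 1 := by
    intro z h1 h2
    rw [hFz z (norm_pos_iff.1 h1), hh]
    simp only [Pi.smul_apply, smul_eq_mul]
    exact inv_mul_cancel₀ (hj z h1 h2)
  have hF0 : F 0 j = 1 := by
    have hc : ContinuousAt F 0 := (hext.differentiableAt (ball_mem_nhds (0 : ℂ) hr)).continuousAt
    have hcj : Tendsto (fun z => F z j) (𝓝[≠] (0 : ℂ)) (𝓝 (F 0 j)) :=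
      (((continuous_apply j).continuousAt.comp hc).tendsto).mono_left nhdsWithin_le_nhds
    have h1 : (fun z => F z j) =ᶠ[𝓝[≠] (0 : ℂ)] fun _ => (1 : ℂ) := by
      have h2 : ∀ᶠ z in 𝓝[≠] (0 : ℂ), ‖z‖ < r :=
        ((continuous_norm.tendsto (0 : ℂ)).eventually (gt_mem_nhds (by simpa using hr))).filter_mono
          nhdsWithin_le_nhds
      have h3 : ∀ᶠ z in 𝓝[≠] (0 : ℂ), z ≠ 0 := eventually_mem_nhdsWithin
      filter_upwards [h2, h3] with z hz1 hz2
      exact hFj z (norm_pos_iff.2 hz2) hz1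
    exact tendsto_nhds_unique hcj (tendsto_const_nhds.congr' h1.symm)
  refine ⟨F, hext, fun z hz hz0 => ?_, fun z h1 h2 i i' => ?_⟩
  · rw [mem_ball_zero_iff] at hz
    have h1 : F z j = 1 := by
      by_cases h : z = 0
      · rw [h]; exact hF0
      · exact hFj z (norm_pos_iff.2 h) hz
    rw [hz0] at h1
    simp at h1
  · rw [hFz z (norm_pos_iff.1 h1), hh]
    simp only [Pi.smul_apply, smul_eq_mul]
    ring

end

end Pool.Agent.K9h21.PD
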